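import Pool.Agent.H14.Sm1

open MvPolynomial Matrix

namespace Pool.Agent.Results.MP_0ed883_ag.NotBasis

/-- The ring `ℂ[x_ij]`, one variable for each unordered pair `{i,j}`. -/
abbrev R (n : ℕ) := MvPolynomial (Sym2 (Fin n)) ℂ

/-- The symmetric matrix of indeterminates. -/
noncomputable def XM (n : ℕ) : Matrix (Fin n) (Fin n) (R n) := Matrix.of fun i j => X s(i, j)

/-- The set of all `4 × 4` minors. -/
def F (n : ℕ) : Set (R n) :=
  {f | ∃ r c : Fin 4 → Fin n, StrictMono r ∧ StrictMono c ∧ f = ((XM n).submatrix r c).det}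

/-- `w · u`. -/
def wt {n : ℕ} (w : Sym2 (Fin n) → ℝ) (u : Sym2 (Fin n) →₀ ℕ) : ℝ := ∑ s, w s * u s

/-- Tropical hypersurface: the minimum of `w · u` over the support of `f` is attained at least twice. -/
def Trop {n : ℕ} (f : R n) : Set (Sym2 (Fin n) → ℝ) :=
  {w | ∃ u ∈ f.support, ∃ v ∈ f.support, u ≠ v ∧ wt w u = wt w v ∧ ∀ z ∈ f.support, wt w u ≤ wt w z}

def vz (i : ℕ) : Fin 3 → ℤ :=
  [![4, 1, -2], ![-2, -2, 2], ![1, 2, 4], ![1, -1, 2], ![0, 1, -2], ![0, 4, 5], ![1, 0, -2], ![-2, 0, 2],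
    ![-3, -3, 4], ![0, -2, -3], ![4, -3, 0], ![1, -2, 0], ![1, -1, 3]].getD i 0
def dz (i j : ℕ) : ℤ := vz i 0 * vz j 0 + vz i 1 * vz j 1 + vz i 2 * vz j 2
theorem dz_comm (i j : ℕ) : dz i j = dz j i := by simp only [dz]; ring
def Ms {n : ℕ} : Sym2 (Fin n) → ℤ := Sym2.lift ⟨fun i j => dz i j, fun _ _ => dz_comm _ _⟩
def wn {n : ℕ} (s : Sym2 (Fin n)) : ℕ := if 3 ∣ Ms s then 1 else 0

theorem val {n : ℕ} (hn : n ≤ 13) (s : Sym2 (Fin n)) : ∃ U : ℤ, Ms s = 3 ^ wn s * U ∧ ¬ 3 ∣ U := by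
  have h : ∀ i j : Fin 13, ¬ 9 ∣ dz i j := by decide +kernel
  have h9 : ¬ 9 ∣ Ms s := by
    induction s using Sym2.ind with | h i j =>
    exact h ⟨i, by omega⟩ ⟨j, by omega⟩
  unfold wn
  split_ifs with h3
  · obtain ⟨U, hU⟩ := h3
    exact ⟨U, by simpa using hU, by omega⟩
  · exact ⟨Ms s, by simp, h3⟩

noncomputable def mon {n : ℕ} (r c : Fin 4 → Fin n) (σ : Equiv.Perm (Fin 4)) : Sym2 (Fin n) →₀ ℕ :=
  ∑ k, Finsupp.single s(r (σ k), c k) 1

theorem mon_prod {n : ℕ} {A : Type} [CommRing A] (r c : Fin 4 → Fin n) (σ : Equiv.Perm (Fin 4)) :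
    (monomial (mon r c σ) 1 : MvPolynomial (Sym2 (Fin n)) A) = ∏ k, X s(r (σ k), c k) := by
  rw [mon, monomial_sum_one]; rfl

theorem mon_wt {n : ℕ} (r c : Fin 4 → Fin n) (σ : Equiv.Perm (Fin 4)) (w : Sym2 (Fin n) → ℝ) :
    wt w (mon r c σ) = ∑ k, w s(r (σ k), c k) := by
  simp only [wt, mon, Finsupp.finset_sum_apply, Nat.cast_sum, Finset.mul_sum]
  rw [Finset.sum_comm]
  refine Finset.sum_congr rfl fun k _ => ?_
  simp [Finsupp.single_apply]

noncomputable def cz {n : ℕ} (r c : Fin 4 → Fin n) (u : Sym2 (Fin n) →₀ ℕ) : ℤ :=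
  ∑ τ ∈ Finset.univ.filter (fun τ => mon r c τ = u), ((Equiv.Perm.sign τ : ℤˣ) : ℤ)

theorem cz_ok {n : ℕ} (r c : Fin 4 → Fin n) (hr : Function.Injective r) (hc : Function.Injective c)
    (σ : Equiv.Perm (Fin 4)) : ¬ 3 ∣ cz r c (mon r c σ) := by
  have hs : ∀ σ τ, mon r c τ = mon r c σ → ∀ k, ∃ k', s(r (σ k), c k) = s(r (τ k'), c k') := by
    intro σ τ h k
    by_contra hn
    push Not at hn
    have := DFunLike.congr_fun h s(r (σ k), c k)
    simp only [mon, Finsupp.finset_sum_apply, Finsupp.single_apply] at this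
    rw [Finset.sum_eq_zero (fun k' _ => if_neg (hn k').symm)] at this
    have h2 := (Finset.sum_eq_zero_iff.1 this.symm) k (Finset.mem_univ _)
    simp at h2
  have K := H14.Sm1.key r c hr hc (fun τ => mon r c τ = mon r c σ) σ (fun τ h => hs σ τ h) (fun τ h => hs τ σ h.symm)
  set S := Finset.univ.filter (fun τ => mon r c τ = mon r c σ) with hS
  have h1 : ∀ τ ∈ S, Equiv.Perm.sign σ = Equiv.Perm.sign τ := by
    intro τ hτ
    by_contra hne
    have := Finset.single_le_sum (f := fun τ => if Equiv.Perm.sign σ = Equiv.Perm.sign τ then 1 else 3)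
      (fun _ _ => Nat.zero_le _) hτ
    simp only [if_neg hne] at this
    omega
  rw [Finset.sum_congr rfl (fun τ hτ => if_pos (h1 τ hτ))] at K
  have h2 : 0 < S.card := Finset.card_pos.2 ⟨σ, by simp [hS]⟩
  rw [cz, ← hS, Finset.sum_congr rfl (fun τ hτ => by rw [← h1 τ hτ])]
  simp only [Finset.sum_const, smul_eq_mul, mul_one, nsmul_eq_mul] at K ⊢
  rcases Int.units_eq_one_or (Equiv.Perm.sign σ) with a | a <;> rw [a] <;> simp <;> omega

theorem det_eq {n : ℕ} (r c : Fin 4 → Fin n) :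
    ((XM n).submatrix r c).det = ∑ σ, monomial (mon r c σ) (((Equiv.Perm.sign σ : ℤˣ) : ℤ) : ℂ) := by
  rw [Matrix.det_apply']
  refine Finset.sum_congr rfl fun σ _ => ?_
  have : ∏ k, ((XM n).submatrix r c) (σ k) k = monomial (mon r c σ) 1 := by rw [mon_prod]; rfl
  rw [this, ← map_intCast (C : ℂ →+* R n), C_mul_monomial, mul_one]

theorem coeff_eq {n : ℕ} (r c : Fin 4 → Fin n) (u) :
    coeff u ((XM n).submatrix r c).det = (cz r c u : ℂ) := by
  rw [det_eq, coeff_sum, cz, Finset.sum_filter]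
  simp [coeff_monomial]

theorem trop {n : ℕ} (hn : n ≤ 13) (f : R n) (hf : f ∈ F n) : (fun s => (wn s : ℝ)) ∈ Trop f := by
  classical
  obtain ⟨r, c, hr, hc, rfl⟩ := hf
  have hmem : ∀ σ, mon r c σ ∈ ((XM n).submatrix r c).det.support := by
    intro σ
    rw [mem_support_iff, coeff_eq]
    intro h
    have : cz r c (mon r c σ) = 0 := by exact_mod_cast h
    exact cz_ok r c hr.injective hc.injective σ (by rw [this]; exact dvd_zero _)
  have hsup : ∀ z ∈ ((XM n).submatrix r c).det.support, ∃ σ, mon r c σ = z := by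
    intro z hz
    by_contra hn
    push Not at hn
    rw [mem_support_iff, coeff_eq, cz, Finset.filter_eq_empty_iff.2 (fun τ _ => hn τ)] at hz
    simp at hz
  let W : Equiv.Perm (Fin 4) → ℕ := fun σ => ∑ k, wn s(r (σ k), c k)
  have hW : ∀ σ, wt (fun s => (wn s : ℝ)) (mon r c σ) = W σ := fun σ => by rw [mon_wt]; simp [W]
  obtain ⟨σ, -, hσ⟩ := Finset.exists_min_image Finset.univ W Finset.univ_nonempty
  by_contra hT
  have hlt : ∀ τ, mon r c τ ≠ mon r c σ → W σ + 1 ≤ W τ := by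
    intro τ hτ
    by_contra h
    apply hT
    refine ⟨_, hmem σ, _, hmem τ, hτ.symm, ?_, ?_⟩
    · rw [hW, hW]; have := hσ τ (Finset.mem_univ _); congr 1; omega
    · intro z hz
      obtain ⟨ρ, rfl⟩ := hsup z hz
      rw [hW, hW]; exact_mod_cast hσ ρ (Finset.mem_univ _)
  choose U hU hU3 using val hn
  let p : Equiv.Perm (Fin 4) → ℤ := fun τ => ∏ k, Ms s(r (τ k), c k)
  have hp : ∀ τ, p τ = 3 ^ W τ * ∏ k, U s(r (τ k), c k) := fun τ => by
    simp only [p, W]
    rw [← Finset.prod_pow_eq_pow_sum, ← Finset.prod_mul_distrib]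
    exact Finset.prod_congr rfl fun k _ => hU _
  have hp2 : ∀ τ, mon r c τ = mon r c σ → p τ = p σ := fun τ h => by
    have e : ∀ τ, p τ = eval Ms (monomial (mon r c τ) 1) := fun τ => by rw [mon_prod]; simp [p]
    rw [e, e, h]
  have h0 : ∑ τ : Equiv.Perm (Fin 4), ((Equiv.Perm.sign τ : ℤˣ) : ℤ) * p τ = 0 := by
    let A : Matrix (Fin 4) (Fin 4) ℤ := Matrix.of fun i j => ![vz (r i) 0, vz (r i) 1, vz (r i) 2, 0] j
    let B : Matrix (Fin 4) (Fin 4) ℤ := Matrix.of fun j i => ![vz (c i) 0, vz (c i) 1, vz (c i) 2, 0] j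
    have hA : A.det = 0 := Matrix.det_eq_zero_of_column_eq_zero 3 (fun i => rfl)
    have : (A * B).det = 0 := by rw [det_mul, hA, zero_mul]
    rw [Matrix.det_apply'] at this
    rw [← this]
    refine Finset.sum_congr rfl fun τ _ => ?_
    congr 1
    refine Finset.prod_congr rfl fun k _ => ?_
    simp [A, B, Matrix.mul_apply, Fin.sum_univ_four, Ms, dz]
  rw [← Finset.sum_filter_add_sum_filter_not Finset.univ (fun τ => mon r c τ = mon r c σ),
    Finset.sum_congr rfl (fun τ hτ => by rw [hp2 τ (Finset.mem_filter.1 hτ).2]), ← Finset.sum_mul] at h0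
  have hd : (3 : ℤ) ^ (W σ + 1) ∣ ∑ τ ∈ Finset.univ.filter (fun τ => ¬ mon r c τ = mon r c σ),
      ((Equiv.Perm.sign τ : ℤˣ) : ℤ) * p τ := by
    refine Finset.dvd_sum fun τ hτ => Dvd.dvd.mul_left ?_ _
    rw [hp]
    exact Dvd.dvd.mul_right (pow_dvd_pow _ (hlt τ (Finset.mem_filter.1 hτ).2)) _
  have hd2 : (3 : ℤ) ^ W σ * 3 ∣ 3 ^ W σ * (cz r c (mon r c σ) * ∏ k, U s(r (σ k), c k)) := by
    rw [← pow_succ, mul_left_comm, ← hp]
    exact (dvd_add_left hd).1 (by rw [cz, h0]; exact dvd_zero _)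
  have hd3 := (mul_dvd_mul_iff_left (by positivity)).1 hd2
  rcases Int.prime_three.dvd_or_dvd hd3 with h | h
  · exact cz_ok r c hr.injective hc.injective σ h
  · obtain ⟨k, -, hk⟩ := (Int.prime_three.dvd_finset_prod_iff _).1 h
    exact hU3 _ hk

def mn {A : Type} [CommRing A] (y : Fin 8 → Fin 8 → A) (p q : Fin 8) : A :=
  (Matrix.of fun i j : Fin 4 => y (![0, 1, 2, p] i) (![0, 1, 2, q] j)).det

def FF {A : Type} [CommRing A] (y : Fin 8 → Fin 8 → A) : A :=
  (2 * y 0 2 * y 1 5 * y 1 2 * y 0 4) * (2 * y 1 2 * y 0 6 * y 0 2 * y 1 7) * mn y 3 3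
  - (2 * y 1 2 * y 0 6 * y 0 2 * y 1 7) * (y 0 2 * y 1 3 - y 0 1 * y 2 3 - 2 * (y 0 3 * y 1 2)) *
    (y 1 2 * y 0 4 * mn y 3 5 + (y 0 1 * y 2 3 - y 0 2 * y 1 3 - y 0 3 * y 1 2) * mn y 4 5)
  - (2 * y 0 2 * y 1 5 * y 1 2 * y 0 4) * (y 0 3 * y 1 2 - 3 * (y 0 1 * y 2 3)) *
    (y 0 2 * y 1 7 * mn y 3 6 + (y 0 1 * y 2 3 - y 0 2 * y 1 3 - y 0 3 * y 1 2) * mn y 6 7)

theorem cert {A : Type} [CommRing A] (y : Fin 8 → Fin 8 → A) (hs : ∀ i j, y i j = y j i)
    (hz : ∀ i j : Fin 8, 3 ∣ dz i j → y i j = 0) :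
    FF y = -12 * (y 0 2 * y 1 5 * y 1 2 * y 0 4 * y 1 2 * y 0 6 * y 0 2 * y 1 7 * y 0 1 * y 2 3 * y 0 1 * y 2 3) := by
  have a00 := hz 0 0 (by decide)
  have a11 := hz 1 1 (by decide)
  have a22 := hz 2 2 (by decide)
  have a33 := hz 3 3 (by decide)
  have a05 := hz 0 5 (by decide)
  have a07 := hz 0 7 (by decide)
  have a16 := hz 1 6 (by decide)
  have a27 := hz 2 7 (by decide)
  have a35 := hz 3 5 (by decide)
  have a36 := hz 3 6 (by decide)
  have a41 := hz 4 1 (by decide)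
  have a42 := hz 4 2 (by decide)
  have a45 := hz 4 5 (by decide)
  have a61 := hz 6 1 (by decide)
  have a67 := hz 6 7 (by decide)
  simp [FF, mn, det_succ_row_zero, Fin.sum_univ_succ, Fin.succAbove, a00, a11, a22, a33, a05, a07, a16, a27, a35,
    a36, a41, a42, a45, a61, a67, hs 1 0, hs 2 0, hs 2 1, hs 3 0, hs 3 1, hs 3 2, hs 4 0, hs 6 0, hs 6 2]
  ring

theorem map_FF {A B : Type} [CommRing A] [CommRing B] (g : A →+* B) (y : Fin 8 → Fin 8 → A) :
    g (FF y) = FF (fun i j => g (y i j)) := by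
  have : ∀ p q, g (mn y p q) = mn (fun i j => g (y i j)) p q := fun p q => by
    rw [mn, RingHom.map_det]; rfl
  simp only [FF, map_sub, map_mul, map_add, this, map_ofNat]

noncomputable def kill (n : ℕ) : R n →ₐ[ℂ] R n := aeval (fun s => if wn s = 0 then X s else 0)

theorem kill_coeff {n : ℕ} (f : R n) (u : Sym2 (Fin n) →₀ ℕ) :
    coeff u (kill n f) = if ∀ s ∈ u.support, wn s = 0 then coeff u f else 0 := by
  classical
  induction f using MvPolynomial.induction_on' with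
  | monomial v a =>
    by_cases hv : ∀ s ∈ v.support, wn s = 0
    · have : kill n (monomial v a) = monomial v a := by
        rw [kill, aeval_monomial, monomial_eq]
        congr 1
        exact Finset.prod_congr rfl fun s hs => by simp only [if_pos (hv s hs)]
      rw [this]
      split_ifs with h
      · rfl
      · rw [coeff_monomial, if_neg]; rintro rfl; exact h hv
    · have : kill n (monomial v a) = 0 := by
        push Not at hv
        obtain ⟨s, hs, h⟩ := hv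
        rw [kill, aeval_monomial, Finsupp.prod, Finset.prod_eq_zero hs, mul_zero]
        simp only [if_neg h]
        exact zero_pow (Finsupp.mem_support_iff.1 hs)
      rw [this]
      split_ifs with h
      · rw [coeff_monomial, if_neg, coeff_zero]; rintro rfl; exact hv h
      · rfl
  | add p q hp hq => rw [map_add, coeff_add, hp, hq, coeff_add]; split_ifs <;> simp

theorem notin {n : ℕ} (hn : 8 ≤ n) :
    ∃ f ∈ Ideal.span (F n), f ≠ 0 ∧ (fun s => (wn s : ℝ)) ∉ Trop f := by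
  classical
  let e : Fin 8 → Fin n := Fin.castLE hn
  let y : Fin 8 → Fin 8 → R n := fun i j => X s(e i, e j)
  have hm : ∀ p q : Fin 8, 2 < p → 2 < q → mn y p q ∈ Ideal.span (F n) := by
    intro p q hp hq
    have h : ∀ p : Fin 8, 2 < p → StrictMono (![0, 1, 2, p] : Fin 4 → Fin 8) := by decide +kernel
    exact Ideal.subset_span ⟨_, _, (Fin.strictMono_castLE hn).comp (h p hp), (Fin.strictMono_castLE hn).comp (h q hq), rfl⟩
  have hk : ∃ u0, kill n (FF y) = monomial u0 (-12) := by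
    have hy : ∀ i j : Fin 8, ¬ 3 ∣ dz i j → kill n (y i j) = monomial (Finsupp.single s(e i, e j) 1) 1 := by
      intro i j h
      have : wn s(e i, e j) = 0 := if_neg h
      simp only [y, kill, aeval_X, this, if_true]; rfl
    have h := map_FF (kill n : R n →+* R n) y
    rw [cert (fun i j => (kill n : R n →+* R n) (y i j)) (fun i j => by simp only [y, Sym2.eq_swap]) (fun i j h => by
      have : wn s(e i, e j) = 1 := if_pos h
      simp [y, kill, this])] at h
    simp only [RingHom.coe_coe] at h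
    rw [hy 0 2 (by decide), hy 1 5 (by decide), hy 1 2 (by decide), hy 0 4 (by decide), hy 0 6 (by decide),
      hy 1 7 (by decide), hy 0 1 (by decide), hy 2 3 (by decide)] at h
    simp only [monomial_mul, mul_one] at h
    have : (-12 : R n) = C (-12) := by simp [map_ofNat]
    rw [this, C_mul_monomial, mul_one] at h
    exact ⟨_, h⟩
  obtain ⟨u0, hu⟩ := hk
  have hc := fun u => kill_coeff (FF y) u
  simp only [hu, coeff_monomial] at hc
  have h0 := hc u0
  rw [if_pos rfl] at h0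
  have h1 : ∀ s ∈ u0.support, wn s = 0 := by
    by_contra h; rw [if_neg h] at h0; norm_num at h0
  rw [if_pos h1] at h0
  have hw : ∀ u : Sym2 (Fin n) →₀ ℕ, wt (fun s => (wn s : ℝ)) u ≤ 0 ↔ ∀ s ∈ u.support, wn s = 0 := by
    intro u
    have : wt (fun s => (wn s : ℝ)) u = ((∑ s, wn s * u s : ℕ) : ℝ) := by simp [wt]
    rw [this, ← Nat.cast_zero, Nat.cast_le, Nat.le_zero, Finset.sum_eq_zero_iff]
    simp only [Finset.mem_univ, true_imp_iff, mul_eq_zero, Finsupp.mem_support_iff]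
    exact forall_congr' fun s => by tauto
  have hmem : u0 ∈ (FF y).support := by rw [mem_support_iff, ← h0]; norm_num
  have huniq : ∀ u ∈ (FF y).support, wt (fun s => (wn s : ℝ)) u ≤ 0 → u = u0 := by
    intro u hu' h
    by_contra hne
    have := hc u
    rw [if_neg (Ne.symm hne), if_pos ((hw u).1 h)] at this
    exact mem_support_iff.1 hu' this.symm
  refine ⟨FF y, ?_, ?_, ?_⟩
  · refine Ideal.sub_mem _ (Ideal.sub_mem _ (Ideal.mul_mem_left _ _ (hm 3 3 (by decide) (by decide)))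
      (Ideal.mul_mem_left _ _ (Ideal.add_mem _ (Ideal.mul_mem_left _ _ (hm 3 5 (by decide) (by decide)))
        (Ideal.mul_mem_left _ _ (hm 4 5 (by decide) (by decide))))))
      (Ideal.mul_mem_left _ _ (Ideal.add_mem _ (Ideal.mul_mem_left _ _ (hm 3 6 (by decide) (by decide)))
        (Ideal.mul_mem_left _ _ (hm 6 7 (by decide) (by decide)))))
  · intro h; rw [h] at hmem; simp at hmem
  · rintro ⟨u, hu1, v, hv1, hne, he, hmin⟩
    have a := (hmin u0 hmem).trans ((hw u0).2 h1)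
    exact hne ((huniq u hu1 a).trans (huniq v hv1 (he ▸ a)).symm)

theorem result (n : ℕ) (h8 : 8 ≤ n) (h12 : n ≤ 12) :
    ∃ w : Sym2 (Fin n) → ℝ, (∀ f ∈ F n, w ∈ Trop f) ∧ ∃ f ∈ Ideal.span (F n), f ≠ 0 ∧ w ∉ Trop f :=
  ⟨_, trop (by omega), notin h8⟩

end Pool.Agent.Results.MP_0ed883_ag.NotBasis
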